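import Pool.Agent.helper91.HZF.Spec

/-!
# Row hzf:LFC (MP_069684_lc): the cost of the functions `leaf`
-/

set_option autoImplicit false

namespace Pool.Agent.HZF

open Finset Pool.Agent.helper38.Neg Pool.Agent.helper55.NT Pool.Agent.LN

theorem LFC_or {N : ℕ} {F : Set (Fn N)} {u w : Fn N} {m1 m2 : ℕ} (h1 : Rel F m1 0 {u})
    (h2 : Rel F m2 0 {w}) : Rel F (m1 + m2 + 1) 0 {fun y => u y || w y} := by
  have h3 := (h1.union h2).trans' (Rel.or (F := F ∪ ({u} ∪ {w})) (u := u) (v := w)
    (Or.inr (Or.inl rfl)) (Or.inr (Or.inr rfl)))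
  exact h3.mono le_rfl le_rfl le_rfl le_rfl

theorem LFC_and {N : ℕ} {F : Set (Fn N)} {u w : Fn N} {m1 m2 : ℕ} (h1 : Rel F m1 0 {u})
    (h2 : Rel F m2 0 {w}) : Rel F (m1 + m2 + 1) 0 {fun y => u y && w y} := by
  have h3 := (h1.union h2).trans' (Rel.and (F := F ∪ ({u} ∪ {w})) (u := u) (v := w)
    (Or.inr (Or.inl rfl)) (Or.inr (Or.inr rfl)))
  exact h3.mono le_rfl le_rfl le_rfl le_rfl

theorem LFC_pw (h2 : PWC_stmt) {n : ℕ} (F : Set (Fn (n + n))) (S : Finset (Fin n)) (v : Bool) :
    Rel F (6 * n + 2) 0 {fun y => pw S v (rv y)} := by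
  have hc : S.card ≤ n := by
    have := Finset.card_le_univ S
    rwa [Fintype.card_fin] at this
  refine (h2 n S).mono (Set.empty_subset _) ?_ (by omega) le_rfl
  cases v
  · exact Set.subset_union_right
  · exact Set.subset_union_left

theorem LFC (h1 : BIG_stmt) (h2 : PWC_stmt) : LFC_stmt := by
  classical
  intro n B m h χ σ OA OB a c gg i v
  have hvar : Rel (Set.range fun p : Fin B × Fin m => gg p.1 p.2) 0 0 {fun y => rv y i v} :=
    Rel.var _ (rail i v)
  have hpw := LFC_pw h2 (Set.range fun p : Fin B × Fin m => gg p.1 p.2)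
  have hcard : ∀ S : Finset (Fin m), S.card ≤ m := by
    intro S
    have := Finset.card_le_univ S
    rwa [Fintype.card_fin] at this
  have hsub : ∀ S : Finset (Fin m), (⋃ x ∈ S, {gg (h i) x}) ⊆
      (Set.range fun p : Fin B × Fin m => gg p.1 p.2) := by
    intro S f hf
    simp only [Set.mem_iUnion, exists_prop, Set.mem_singleton_iff] at hf
    obtain ⟨x, -, hx⟩ := hf
    exact ⟨(h i, x), hx.symm⟩
  have hex : Rel (Set.range fun p : Fin B × Fin m => gg p.1 p.2) (m + 1) 0
      {fun y => decide (∃ x, χ x i = false ∧ gg (h i) x y = true)} := by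
    have h3 := (h1 (n + n) (Fin m) (univ.filter fun x => χ x i = false) (fun x => gg (h i) x)).1
    refine h3.mono (hsub _) ?_ (by have := hcard (univ.filter fun x => χ x i = false); omega) le_rfl
    rintro f rfl
    rw [Set.mem_singleton_iff]
    funext y
    refine decide_eq_decide.2 ?_
    simp only [Finset.mem_filter, Finset.mem_univ, true_and]
  have hall : Rel (Set.range fun p : Fin B × Fin m => gg p.1 p.2) (m + 1) 0
      {fun y => decide (∀ x, χ x i = true → gg (h i) x y = true)} := by
    have h3 := (h1 (n + n) (Fin m) (univ.filter fun x => χ x i = true) (fun x => gg (h i) x)).2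
    refine h3.mono (hsub _) ?_ (by have := hcard (univ.filter fun x => χ x i = true); omega) le_rfl
    rintro f rfl
    rw [Set.mem_singleton_iff]
    funext y
    refine decide_eq_decide.2 ?_
    simp only [Finset.mem_filter, Finset.mem_univ, true_and]
  unfold leaf
  split_ifs with c1 c2 c3
  · exact (LFC_or hvar (hpw _ _)).mono le_rfl le_rfl (by omega) le_rfl
  · exact (LFC_and hvar (hpw _ _)).mono le_rfl le_rfl (by omega) le_rfl
  · refine (LFC_or (LFC_and hvar hex) (LFC_and (hpw ((part h χ σ (h i) true).erase i) v)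
      hall)).mono le_rfl ?_ (by omega) le_rfl
    rintro f rfl
    rw [Set.mem_singleton_iff]
  · exact hvar.mono le_rfl le_rfl (by omega) le_rfl

end Pool.Agent.HZF
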